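import Pool.Agent.W84.T.Defs

/-!
# T8-TR: correlations with the third vertex
-/

set_option autoImplicit false

namespace Pool.Agent.W597.T.Tr

open Finset Filter
open Pool.Agent.H376R2.MR
open Pool.Agent.W78.EC (SP S_SCNT)
open Pool.Agent.W84.T

theorem mem_SP {N : ℕ} {p : ℕ × ℕ} : p ∈ SP N ↔
    (1 ≤ p.1 ∧ p.1 ≤ N) ∧ (1 ≤ p.2 ∧ p.2 ≤ N) ∧ ∃ n : ℕ, p.1 * p.2 = n ^ 2 + 1 := by
  classical
  unfold SP
  rw [mem_filter, mem_product, mem_Icc, mem_Icc, and_assoc]

theorem t3_eq {p : ℕ × ℕ} {n : ℕ} (h : p.1 * p.2 = n ^ 2 + 1) : t3 p = p.1 + p.2 + 2 * n := by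
  unfold t3
  rw [h, Nat.add_sub_cancel, Nat.sqrt_eq']

/-- the map to the third vertex -/
def T (p : ℕ × ℕ) : ℕ × ℕ := (p.1, t3 p)

theorem T_mul {p : ℕ × ℕ} {n : ℕ} (h : p.1 * p.2 = n ^ 2 + 1) :
    p.1 * t3 p = (n + p.1) ^ 2 + 1 := by
  rw [t3_eq h]
  have : p.1 * (p.1 + p.2 + 2 * n) = p.1 * p.2 + p.1 ^ 2 + 2 * n * p.1 := by ring
  rw [this, h]
  ring

theorem T_inj {N : ℕ} : Set.InjOn T (SP N : Set (ℕ × ℕ)) := by
  intro p hp q hq hpq
  rw [mem_coe, mem_SP] at hp hq
  obtain ⟨_, _, n, hn⟩ := hp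
  obtain ⟨_, _, m, hm⟩ := hq
  have h1 : p.1 = q.1 := (congrArg Prod.fst hpq : (T p).1 = (T q).1)
  have h2 : t3 p = t3 q := (congrArg Prod.snd hpq : (T p).2 = (T q).2)
  have h3 := T_mul hn
  have h4 := T_mul hm
  rw [h1, h2, h4] at h3
  have h5 : m + q.1 = n + q.1 := by
    have : (m + q.1) ^ 2 = (n + q.1) ^ 2 := by omega
    exact (Nat.pow_left_inj (by norm_num)).1 this
  have h6 : m = n := by omega
  rw [t3_eq hn, t3_eq hm, h1, h6] at h2
  exact Prod.ext h1 (by omega)

theorem T_img (N : ℕ) : ((SP N).filter (fun p => t3 p ≤ N)).image T =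
    (SP N).filter (fun q => q.1 < q.2) := by
  ext ⟨d, D⟩
  rw [mem_image, mem_filter]
  constructor
  · rintro ⟨p, hp, hpq⟩
    rw [mem_filter, mem_SP] at hp
    obtain ⟨⟨⟨h1, h2⟩, ⟨h3, h4⟩, n, hn⟩, h5⟩ := hp
    unfold T at hpq
    rw [Prod.mk.injEq] at hpq
    obtain ⟨rfl, rfl⟩ := hpq
    have h6 := t3_eq hn
    refine ⟨mem_SP.2 ⟨⟨h1, h2⟩, ⟨by simp only; omega, h5⟩, n + p.1, T_mul hn⟩, by simp only; omega⟩
  · rintro ⟨hq, hlt⟩
    rw [mem_SP] at hq
    simp only at hq hlt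
    obtain ⟨⟨h1, h2⟩, ⟨h3, h4⟩, m, hm⟩ := hq
    have hmd : d ≤ m := by
      by_contra hcon
      have : m + 1 ≤ d := by omega
      nlinarith
    obtain ⟨n, rfl⟩ := Nat.exists_eq_add_of_le hmd
    have hpos : 2 * (d + n) < D + d := by
      by_contra hcon
      have h5 : D + d ≤ 2 * (d + n) := by omega
      have h6 : (D + d) ^ 2 ≤ (2 * (d + n)) ^ 2 := Nat.pow_le_pow_left h5 2
      zify at h6 hm
      nlinarith [sq_nonneg ((D : ℤ) - d)]
    obtain ⟨e, he⟩ := Nat.exists_eq_add_of_lt hpos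
    have hde : d * (e + 1) = n ^ 2 + 1 := by
      zify at he hm ⊢
      have h7 : (e : ℤ) + 1 = D + d - 2 * (d + n) := by linarith
      rw [h7]
      nlinarith
    have ht : t3 (d, e + 1) = D := by
      rw [t3_eq (p := (d, e + 1)) hde]
      simp only
      omega
    refine ⟨(d, e + 1), ?_, ?_⟩
    · rw [mem_filter, mem_SP]
      refine ⟨⟨⟨h1, h2⟩, ⟨by simp only; omega, by simp only; omega⟩, n, hde⟩, ?_⟩
      rw [ht]
      exact h4
    · unfold T
      rw [ht]

theorem ratio {d d' n : ℕ} (hd : 1 ≤ d) (h : d * d' = n ^ 2 + 1) :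
    0 ≤ (d' : ℝ) / d - (Real.sqrt (max (((d + d' + 2 * n : ℕ) : ℝ) / d) 1) - 1) ^ 2 ∧
    (d' : ℝ) / d - (Real.sqrt (max (((d + d' + 2 * n : ℕ) : ℝ) / d) 1) - 1) ^ 2 ≤ 2 / d := by
  have hd0 : (0 : ℝ) < d := by exact_mod_cast hd
  have hn0 : (0 : ℝ) ≤ n := Nat.cast_nonneg n
  have hd'0 : (0 : ℝ) ≤ d' := Nat.cast_nonneg d'
  have hh : (d : ℝ) * d' = n ^ 2 + 1 := by exact_mod_cast h
  have hv : ((d + d' + 2 * n : ℕ) : ℝ) / d = 1 + d' / d + 2 * (n / d) := by
    push_cast
    field_simp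
  have hv1 : 1 ≤ ((d + d' + 2 * n : ℕ) : ℝ) / d := by
    rw [hv]
    have h1 : 0 ≤ (d' : ℝ) / d := div_nonneg hd'0 hd0.le
    have h2 : 0 ≤ (n : ℝ) / d := div_nonneg hn0 hd0.le
    linarith
  rw [max_eq_left hv1]
  set s := Real.sqrt (((d + d' + 2 * n : ℕ) : ℝ) / d) with hs
  have hs1 : 1 ≤ s := by
    rw [hs]
    exact Real.one_le_sqrt.2 hv1
  have hs2 : s ^ 2 = 1 + d' / d + 2 * (n / d) := by
    rw [hs, Real.sq_sqrt (by linarith), hv]
  set x := Real.sqrt ((d' : ℝ) / d) with hx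
  have hx0 : 0 ≤ x := Real.sqrt_nonneg _
  have hx2 : x ^ 2 = d' / d := by
    rw [hx, Real.sq_sqrt (div_nonneg hd'0 hd0.le)]
  have hxd : (x * d) ^ 2 = n ^ 2 + 1 := by
    rw [mul_pow, hx2, ← hh]
    field_simp
  have hxd0 : 0 ≤ x * d := mul_nonneg hx0 hd0.le
  have h1 : (n : ℝ) ≤ x * d := by
    by_contra hcon
    push Not at hcon
    nlinarith
  have h2 : x * d ≤ n + 1 := by
    by_contra hcon
    push Not at hcon
    nlinarith
  have h3 : (n : ℝ) / d ≤ x := by
    rw [div_le_iff₀ hd0]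
    exact h1
  have h4 : x ≤ n / d + 1 / d := by
    rw [← add_div, le_div_iff₀ hd0]
    exact h2
  set y := s - 1 with hy
  have hy0 : 0 ≤ y := by linarith
  have hys : s = y + 1 := by linarith
  have e1 : y ^ 2 + 2 * y = d' / d + 2 * (n / d) := by
    have : s ^ 2 = y ^ 2 + 2 * y + 1 := by rw [hys]; ring
    linarith
  have hyx : y ≤ x := by
    by_contra hcon
    push Not at hcon
    nlinarith
  have e2 : x ^ 2 - y ^ 2 + 2 * (x - y) = 2 * (x - n / d) := by linarith
  rw [← hx2]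
  have h5 : 2 / (d : ℝ) = 2 * (1 / d) := by ring
  rw [h5]
  constructor
  · nlinarith
  · nlinarith

/-! ### counting -/

theorem logle {N : ℕ} (hN : 1 ≤ N) : (Nat.log 2 N : ℝ) ≤ 2 * Real.log N := by
  have h1 : (2 : ℝ) ^ (Nat.log 2 N) ≤ N := by
    exact_mod_cast Nat.pow_log_le_self 2 (by omega)
  have h2 : Real.log ((2 : ℝ) ^ (Nat.log 2 N)) ≤ Real.log N :=
    Real.log_le_log (by positivity) h1
  rw [Real.log_pow] at h2
  have h3 := Real.log_two_gt_d9
  have h4 : (0 : ℝ) ≤ (Nat.log 2 N : ℝ) := Nat.cast_nonneg _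
  nlinarith

theorem dy (h : S_SCNT) (a : ℕ) (ha : 1 ≤ a) : ∃ C : ℝ, 0 ≤ C ∧ ∀ N : ℕ, 1 ≤ N →
    ∑ p ∈ (SP N).filter (fun p => p.2 ≤ a * p.1), 1 / (p.1 : ℝ) ≤ C * (Real.log N + 1) := by
  classical
  obtain ⟨C, hC⟩ := h
  refine ⟨4 * |C| * a, by positivity, fun N hN => ?_⟩
  have hmaps : ∀ p ∈ (SP N).filter (fun p => p.2 ≤ a * p.1),
      Nat.log 2 p.1 ∈ range (Nat.log 2 N + 1) := by
    intro p hp
    rw [mem_filter, mem_SP] at hp
    rw [mem_range]
    have := Nat.log_mono_right (b := 2) hp.1.1.2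
    omega
  rw [← Finset.sum_fiberwise_of_maps_to hmaps]
  have hfib : ∀ k ∈ range (Nat.log 2 N + 1),
      ∑ p ∈ ((SP N).filter (fun p => p.2 ≤ a * p.1)).filter (fun p => Nat.log 2 p.1 = k),
        1 / (p.1 : ℝ) ≤ 2 * |C| * a := by
    intro k _
    have hk : ∀ p ∈ ((SP N).filter (fun p => p.2 ≤ a * p.1)).filter (fun p => Nat.log 2 p.1 = k),
        1 / (p.1 : ℝ) ≤ 1 / 2 ^ k := by
      intro p hp
      rw [mem_filter, mem_filter, mem_SP] at hp
      have h1 : 2 ^ k ≤ p.1 := by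
        rw [← hp.2]
        exact Nat.pow_log_le_self 2 (by omega)
      have h2 : (2 : ℝ) ^ k ≤ p.1 := by exact_mod_cast h1
      exact one_div_le_one_div_of_le (by positivity) h2
    refine le_trans (Finset.sum_le_sum hk) ?_
    rw [Finset.sum_const, nsmul_eq_mul]
    have hsub : ((SP N).filter (fun p => p.2 ≤ a * p.1)).filter (fun p => Nat.log 2 p.1 = k) ⊆
        (((Icc 1 (2 ^ (k + 1))) ×ˢ (Icc 1 (a * 2 ^ (k + 1)))).filter
          (fun p => ∃ n : ℕ, p.1 * p.2 = n ^ 2 + 1)) := by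
      intro p hp
      rw [mem_filter, mem_filter, mem_SP] at hp
      obtain ⟨⟨⟨⟨h1, h2⟩, ⟨h3, h4⟩, h5⟩, h6⟩, h7⟩ := hp
      rw [mem_filter, mem_product, mem_Icc, mem_Icc]
      have h8 : p.1 < 2 ^ (k + 1) := by
        rw [← h7]
        exact Nat.lt_pow_succ_log_self (by norm_num) _
      refine ⟨⟨⟨h1, h8.le⟩, ⟨h3, h6.trans (Nat.mul_le_mul_left a h8.le)⟩⟩, h5⟩
    have hcard := hC (2 ^ (k + 1)) (a * 2 ^ (k + 1)) Nat.one_le_two_pow
      (Nat.le_mul_of_pos_left _ ha)
    have hcard2 : ((((SP N).filter (fun p => p.2 ≤ a * p.1)).filter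
        (fun p => Nat.log 2 p.1 = k)).card : ℝ) ≤ |C| * (a * 2 ^ (k + 1)) := by
      refine le_trans (by exact_mod_cast Finset.card_le_card hsub) (le_trans hcard ?_)
      have h9 : Real.sqrt (((2 ^ (k + 1) : ℕ) : ℝ) * ((a * 2 ^ (k + 1) : ℕ) : ℝ)) ≤
          (a : ℝ) * 2 ^ (k + 1) := by
        rw [Real.sqrt_le_left (by positivity)]
        push_cast
        have h10 : (1 : ℝ) ≤ a := by exact_mod_cast ha
        have h11 : (0 : ℝ) < 2 ^ (k + 1) := by positivity
        nlinarith [mul_pos h11 h11]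
      exact mul_le_mul (le_abs_self C) h9 (Real.sqrt_nonneg _) (abs_nonneg C)
    calc _ ≤ |C| * (a * 2 ^ (k + 1)) * (1 / 2 ^ k) :=
          mul_le_mul_of_nonneg_right hcard2 (by positivity)
      _ = 2 * |C| * a := by
          rw [pow_succ]
          field_simp
  refine le_trans (Finset.sum_le_sum hfib) ?_
  rw [Finset.sum_const, card_range, nsmul_eq_mul]
  push_cast
  have h1 := logle hN
  have h2 : 0 ≤ 2 * |C| * (a : ℝ) := by positivity
  calc ((Nat.log 2 N : ℝ) + 1) * (2 * |C| * a) ≤ (2 * Real.log N + 2) * (2 * |C| * a) :=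
        mul_le_mul_of_nonneg_right (by linarith) h2
    _ = _ := by ring

theorem lam1 (n : ℕ) : |(lam n : ℝ)| = 1 := by
  unfold lam
  push_cast
  rw [abs_pow, abs_neg, abs_one, one_pow]

theorem lamb (j d D : ℕ) : |(lam d : ℝ) ^ j * lam D| = 1 := by
  rw [abs_mul, abs_pow, lam1, lam1, one_pow, one_mul]

/-! ### the weights -/

/-- the weight for the third vertex -/
noncomputable def φ1 (φ : ℝ → ℝ) (r : ℝ) : ℝ := φ ((Real.sqrt (max r 1) - 1) ^ 2)

theorem φ1_zero {A : ℝ} {φ : ℝ → ℝ} (hφ : Rt A φ) {r : ℝ} (hr : r ≤ 1) : φ1 φ r = 0 := by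
  by_contra hcon
  unfold φ1 at hcon
  rw [max_eq_right hr, Real.sqrt_one] at hcon
  have h1 := (hφ.supp _ hcon).1
  have h2 := hφ.one_lt
  have h3 : 0 < 1 / A := by positivity
  norm_num at h1
  rw [one_div] at h3
  linarith

theorem φ1_Rt {A : ℝ} {φ : ℝ → ℝ} (hφ : Rt A φ) : Rt ((1 + Real.sqrt A) ^ 2) (φ1 φ) where
  one_lt := by
    have h1 := hφ.one_lt
    have h2 : 0 < Real.sqrt A := Real.sqrt_pos.2 (by linarith)
    nlinarith
  cont := by
    unfold φ1
    have := hφ.cont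
    fun_prop
  supp := by
    intro r hr
    have h1 := hφ.one_lt
    have hA : 0 < Real.sqrt A := Real.sqrt_pos.2 (by linarith)
    have hr1 : 1 < r := by
      by_contra hcon
      exact hr (φ1_zero hφ (not_lt.1 hcon))
    unfold φ1 at hr
    have h2 := (hφ.supp _ hr).2
    rw [max_eq_left hr1.le] at h2
    have h3 : 1 ≤ Real.sqrt r := Real.one_le_sqrt.2 hr1.le
    have h4 : Real.sqrt r - 1 ≤ Real.sqrt A := Real.le_sqrt_of_sq_le h2
    constructor
    · refine le_trans ?_ hr1.le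
      rw [div_le_one (by positivity)]
      nlinarith
    · have h5 : r = Real.sqrt r ^ 2 := (Real.sq_sqrt (by linarith)).symm
      rw [h5]
      exact pow_le_pow_left₀ (by linarith) (by linarith) 2

theorem hcs {A : ℝ} {φ : ℝ → ℝ} (hφ : Rt A φ) : HasCompactSupport φ := by
  refine HasCompactSupport.intro (isCompact_Icc (a := 1 / A) (b := A)) fun x hx => ?_
  by_contra hcon
  exact hx (hφ.supp x hcon)

theorem tr (h : Pool.Agent.W78.EC.S_SCNT) (h1 : S_WT) : S_TR := by
  classical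
  intro j A φ hφ
  have hA := hφ.one_lt
  obtain ⟨B, hB⟩ := hφ.cont.bounded_above_of_compact_support (hcs hφ)
  have hB0 : 0 ≤ B := le_trans (norm_nonneg _) (hB 0)
  obtain ⟨a, ha⟩ := exists_nat_ge (A + 2)
  have ha1 : 1 ≤ a := by
    have : (1 : ℝ) ≤ a := by linarith
    exact_mod_cast this
  obtain ⟨C, hC0, hC⟩ := dy h a ha1
  obtain ⟨C', hC'⟩ := h
  have hunif := (hcs hφ).uniformContinuous_of_continuous hφ.cont
  rw [Metric.uniformContinuous_iff] at hunif
  have hWT := h1 j _ _ (φ1_Rt hφ)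
  -- the sums
  set F : ℕ × ℕ → ℝ := fun p => (lam p.1 : ℝ) ^ j * lam (t3 p) * (φ ((p.2 : ℝ) / p.1) / p.1) with hF
  set G : ℕ × ℕ → ℝ := fun p => (lam p.1 : ℝ) ^ j * lam p.2 * (φ1 φ ((p.2 : ℝ) / p.1) / p.1) with hG
  have hGsum : ∀ N : ℕ, ∑ p ∈ SP N, G p = ∑ p ∈ (SP N).filter (fun p => t3 p ≤ N), G (T p) := by
    intro N
    have e1 : ∑ p ∈ SP N, G p = ∑ p ∈ (SP N).filter (fun q => q.1 < q.2), G p := by
      symm
      refine Finset.sum_subset (Finset.filter_subset _ _) fun p hp hp' => ?_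
      rw [mem_filter, not_and] at hp'
      have h2 : ¬ p.1 < p.2 := hp' hp
      have h3 := (mem_SP.1 hp).1.1
      have h4 : (p.2 : ℝ) / p.1 ≤ 1 := by
        rw [div_le_one (by exact_mod_cast h3)]
        exact_mod_cast not_lt.1 h2
      rw [hG]
      simp only
      rw [φ1_zero hφ h4]
      simp
    rw [e1, ← T_img, Finset.sum_image]
    exact T_inj.mono (by exact_mod_cast Finset.filter_subset _ _)
  -- the comparison
  have hcomp : ∀ ε : ℝ, 0 < ε → ∃ D : ℝ, ∀ N : ℕ, 1 ≤ N →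
      |∑ p ∈ SP N, F p| ≤ |∑ p ∈ SP N, G p| + ε * (C * (Real.log N + 1)) + D := by
    intro ε hε
    obtain ⟨δ, hδ, hδ'⟩ := hunif ε hε
    obtain ⟨d0, hd0⟩ := exists_nat_gt (2 / δ)
    refine ⟨d0 * (a * d0) * (2 * B) + |C'| * (4 * A * B), fun N hN => ?_⟩
    have hN0 : (0 : ℝ) < N := by exact_mod_cast hN
    have hlog : 0 ≤ Real.log N := Real.log_nonneg (by exact_mod_cast hN)
    -- difference for one pair
    have hone : ∀ p ∈ SP N, |F p - G (T p)| ≤
        (if p.2 ≤ a * p.1 then ε * (1 / (p.1 : ℝ)) else 0) +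
        (if p.2 ≤ a * p.1 ∧ p.1 < d0 then 2 * B else 0) := by
      intro p hp
      rw [mem_SP] at hp
      obtain ⟨⟨h2, h3⟩, ⟨h4, h5⟩, n, hn⟩ := hp
      have hd : (0 : ℝ) < p.1 := by exact_mod_cast h2
      have hd1 : (1 : ℝ) ≤ p.1 := by exact_mod_cast h2
      have hr := ratio (d := p.1) (d' := p.2) h2 hn
      rw [← t3_eq hn] at hr
      set u := (p.2 : ℝ) / p.1 with hu
      set w := (Real.sqrt (max ((t3 p : ℝ) / p.1) 1) - 1) ^ 2 with hw
      have hw0 : 0 ≤ w := sq_nonneg _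
      have e1 : F p - G (T p) = (lam p.1 : ℝ) ^ j * lam (t3 p) * ((φ u - φ w) / p.1) := by
        rw [hF, hG]
        simp only [T, φ1]
        rw [← hu, ← hw]
        ring
      rw [e1, abs_mul, lamb, one_mul, abs_div, abs_of_pos hd]
      by_cases hzero : φ u = 0 ∧ φ w = 0
      · rw [hzero.1, hzero.2, sub_zero, abs_zero, zero_div]
        have : 0 ≤ ε * (1 / (p.1 : ℝ)) := by positivity
        split_ifs <;> linarith
      · have h2d : 2 / (p.1 : ℝ) ≤ 2 := by
          rw [div_le_iff₀ hd]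
          linarith
        have huA : u ≤ A + 2 := by
          by_cases hz : φ u = 0
          · have hz' : φ w ≠ 0 := fun h => hzero ⟨hz, h⟩
            have := (hφ.supp w hz').2
            linarith
          · have := (hφ.supp u hz).2
            linarith
        have hle : p.2 ≤ a * p.1 := by
          have h6 : (p.2 : ℝ) ≤ a * p.1 := by
            rw [hu, div_le_iff₀ hd] at huA
            nlinarith
          exact_mod_cast h6
        rw [if_pos hle]
        by_cases hlt : p.1 < d0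
        · rw [if_pos ⟨hle, hlt⟩]
          have h7 : |φ u - φ w| ≤ 2 * B := by
            have h8 := hB u
            have h9 := hB w
            rw [Real.norm_eq_abs] at h8 h9
            have := abs_sub (φ u) (φ w)
            linarith
          have h8 : |φ u - φ w| / p.1 ≤ 2 * B := by
            rw [div_le_iff₀ hd]
            nlinarith
          have : 0 ≤ ε * (1 / (p.1 : ℝ)) := by positivity
          linarith
        · have h7 : |φ u - φ w| ≤ ε := by
            have h8 : dist u w < δ := by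
              rw [Real.dist_eq, abs_of_nonneg hr.1]
              refine lt_of_le_of_lt hr.2 ?_
              have h9 : (d0 : ℝ) ≤ p.1 := by exact_mod_cast not_lt.1 hlt
              rw [div_lt_iff₀ hδ] at hd0
              rw [div_lt_iff₀ hd]
              nlinarith
            have := hδ' h8
            rw [Real.dist_eq] at this
            exact this.le
          have h8 : |φ u - φ w| / p.1 ≤ ε * (1 / p.1) := by
            rw [mul_one_div]
            exact div_le_div_of_nonneg_right h7 hd.le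
          have : 0 ≤ (if p.2 ≤ a * p.1 ∧ p.1 < d0 then 2 * B else 0) := by
            split_ifs <;> linarith
          linarith
    -- pairs with large third vertex
    have hbig : ∀ p ∈ SP N, ¬ t3 p ≤ N → |F p| ≤ 4 * A * B / N := by
      intro p hp ht
      rw [mem_SP] at hp
      obtain ⟨⟨h2, h3⟩, ⟨h4, h5⟩, n, hn⟩ := hp
      have hd : (0 : ℝ) < p.1 := by exact_mod_cast h2
      rw [hF]
      simp only
      rw [abs_mul, lamb, one_mul, abs_div, abs_of_pos hd]
      by_cases hz : φ ((p.2 : ℝ) / p.1) = 0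
      · rw [hz, abs_zero, zero_div]
        positivity
      · have h6 := (hφ.supp _ hz).2
        rw [div_le_iff₀ hd] at h6
        have h7 : (N : ℝ) < 4 * A * p.1 := by
          rw [t3_eq hn] at ht
          have hn2 : 2 * n ≤ p.1 + p.2 := by
            by_contra hcon
            have h8 : (p.1 + p.2) ^ 2 < (2 * n) ^ 2 := Nat.pow_lt_pow_left (by omega) (by norm_num)
            zify at h8 hn
            nlinarith [sq_nonneg ((p.1 : ℤ) - p.2)]
          have h9 : N < 2 * p.1 + 2 * p.2 := by omega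
          have h10 : (N : ℝ) < 2 * p.1 + 2 * p.2 := by exact_mod_cast h9
          nlinarith
        have h8 := hB ((p.2 : ℝ) / p.1)
        rw [Real.norm_eq_abs] at h8
        rw [div_le_div_iff₀ hd hN0]
        calc |φ ((p.2 : ℝ) / p.1)| * N ≤ B * N := mul_le_mul_of_nonneg_right h8 hN0.le
          _ ≤ B * (4 * A * p.1) := mul_le_mul_of_nonneg_left h7.le hB0
          _ = _ := by ring
    -- assembling
    have hsplit : ∑ p ∈ SP N, F p = ∑ p ∈ (SP N).filter (fun p => t3 p ≤ N), F p +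
        ∑ p ∈ (SP N).filter (fun p => ¬ t3 p ≤ N), F p :=
      (Finset.sum_filter_add_sum_filter_not _ _ _).symm
    have e2 : ∑ p ∈ SP N, F p = ∑ p ∈ SP N, G p +
        ∑ p ∈ (SP N).filter (fun p => t3 p ≤ N), (F p - G (T p)) +
        ∑ p ∈ (SP N).filter (fun p => ¬ t3 p ≤ N), F p := by
      rw [hsplit, hGsum N, Finset.sum_sub_distrib]
      ring
    have b1 : |∑ p ∈ (SP N).filter (fun p => t3 p ≤ N), (F p - G (T p))| ≤
        ε * (C * (Real.log N + 1)) + d0 * (a * d0) * (2 * B) := by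
      refine le_trans (Finset.abs_sum_le_sum_abs _ _) ?_
      have s1 : ∑ p ∈ (SP N).filter (fun p => t3 p ≤ N), |F p - G (T p)| ≤
          ∑ p ∈ SP N, |F p - G (T p)| :=
        Finset.sum_le_sum_of_subset_of_nonneg (Finset.filter_subset _ _) fun _ _ _ => abs_nonneg _
      refine le_trans s1 (le_trans (Finset.sum_le_sum hone) ?_)
      rw [Finset.sum_add_distrib, ← Finset.sum_filter, ← Finset.sum_filter, ← Finset.mul_sum,
        Finset.sum_const, nsmul_eq_mul]
      have s2 := hC N hN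
      have s3 : ((SP N).filter (fun p => p.2 ≤ a * p.1 ∧ p.1 < d0)).card ≤ d0 * (a * d0) := by
        have hsub : (SP N).filter (fun p => p.2 ≤ a * p.1 ∧ p.1 < d0) ⊆
            (range d0) ×ˢ (Icc 1 (a * d0)) := by
          intro p hp
          rw [mem_filter, mem_SP] at hp
          obtain ⟨⟨⟨h2, h3⟩, ⟨h4, h5⟩, _⟩, h6, h7⟩ := hp
          rw [mem_product, mem_range, mem_Icc]
          exact ⟨h7, h4, h6.trans (Nat.mul_le_mul_left a h7.le)⟩
        refine le_trans (Finset.card_le_card hsub) ?_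
        rw [Finset.card_product, card_range, Nat.card_Icc, Nat.add_sub_cancel]
      have s4 : (((SP N).filter (fun p => p.2 ≤ a * p.1 ∧ p.1 < d0)).card : ℝ) ≤
          d0 * (a * d0) := by exact_mod_cast s3
      have s5 := mul_le_mul_of_nonneg_left s2 hε.le
      have s6 := mul_le_mul_of_nonneg_right s4 (by linarith : 0 ≤ 2 * B)
      linarith
    have b2 : |∑ p ∈ (SP N).filter (fun p => ¬ t3 p ≤ N), F p| ≤ |C'| * (4 * A * B) := by
      refine le_trans (Finset.abs_sum_le_sum_abs _ _) ?_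
      have s1 : ∑ p ∈ (SP N).filter (fun p => ¬ t3 p ≤ N), |F p| ≤
          ∑ p ∈ (SP N).filter (fun p => ¬ t3 p ≤ N), 4 * A * B / N := by
        refine Finset.sum_le_sum fun p hp => ?_
        rw [mem_filter] at hp
        exact hbig p hp.1 hp.2
      refine le_trans s1 ?_
      rw [Finset.sum_const, nsmul_eq_mul]
      have s2 : (((SP N).filter (fun p => ¬ t3 p ≤ N)).card : ℝ) ≤ |C'| * N := by
        have s3 : (((SP N).filter (fun p => ¬ t3 p ≤ N)).card : ℝ) ≤ ((SP N).card : ℝ) := by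
          exact_mod_cast Finset.card_le_card (Finset.filter_subset _ _)
        have s4 := hC' N N hN le_rfl
        rw [Real.sqrt_mul_self hN0.le] at s4
        have s5 : ((SP N).card : ℝ) ≤ C' * N := by
          convert s4 using 2
          unfold SP
          congr
        refine le_trans s3 (le_trans s5 ?_)
        exact mul_le_mul_of_nonneg_right (le_abs_self _) hN0.le
      calc _ ≤ |C'| * N * (4 * A * B / N) := mul_le_mul_of_nonneg_right s2 (by positivity)
        _ = |C'| * (4 * A * B) := by field_simp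
    rw [e2]
    refine le_trans (abs_add_le _ _) ?_
    have := abs_add_le (∑ p ∈ SP N, G p) (∑ p ∈ (SP N).filter (fun p => t3 p ≤ N), (F p - G (T p)))
    linarith
  -- the limit
  rw [Metric.tendsto_atTop] at hWT ⊢
  intro η hη
  set ε : ℝ := η / (8 * (C + 1)) with hε
  have hε0 : 0 < ε := by positivity
  obtain ⟨D, hD⟩ := hcomp ε hε0
  obtain ⟨N₁, hN₁⟩ := hWT (η / 4) (by linarith)
  obtain ⟨N₂, hN₂⟩ := exists_nat_ge (Real.exp (max 1 (4 * |D| / η)))
  refine ⟨max N₁ N₂, fun N hN => ?_⟩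
  have hNN₁ : N₁ ≤ N := le_trans (le_max_left _ _) hN
  have hNN₂ : N₂ ≤ N := le_trans (le_max_right _ _) hN
  have hNr : Real.exp (max 1 (4 * |D| / η)) ≤ N := le_trans hN₂ (by exact_mod_cast hNN₂)
  have hNpos : (0 : ℝ) < N := lt_of_lt_of_le (Real.exp_pos _) hNr
  have hN1 : 1 ≤ N := by
    have : 0 < N := by exact_mod_cast hNpos
    omega
  have hlog : max 1 (4 * |D| / η) ≤ Real.log N := by
    rw [Real.le_log_iff_exp_le hNpos]
    exact hNr
  have hlog1 : 1 ≤ Real.log N := le_trans (le_max_left _ _) hlog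
  have hlog0 : 0 < Real.log N := by linarith
  have hlog2 : 4 * |D| / η ≤ Real.log N := le_trans (le_max_right _ _) hlog
  have h5 := hN₁ N hNN₁
  rw [Real.dist_eq, sub_zero, abs_div, abs_of_pos hlog0, div_lt_iff₀ hlog0] at h5
  rw [Real.dist_eq, sub_zero, abs_div, abs_of_pos hlog0, div_lt_iff₀ hlog0]
  have h6 := hD N hN1
  have h7 : |D| ≤ η / 4 * Real.log N := by
    rw [div_le_iff₀ hη] at hlog2
    linarith
  have h8 : ε * (C * (Real.log N + 1)) ≤ η / 4 * Real.log N := by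
    have h9 : ε * (C + 1) = η / 8 := by
      rw [hε]
      field_simp
    have h10 : ε * C ≤ η / 8 := by
      have : ε * C ≤ ε * (C + 1) := mul_le_mul_of_nonneg_left (by linarith) hε0.le
      linarith
    calc ε * (C * (Real.log N + 1)) = ε * C * (Real.log N + 1) := by ring
      _ ≤ η / 8 * (2 * Real.log N) :=
        mul_le_mul h10 (by linarith) (by linarith) (by linarith)
      _ = _ := by ring
  have h9 := le_abs_self D
  have h10 : 0 < η * Real.log N := mul_pos hη hlog0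
  calc _ ≤ |∑ p ∈ SP N, G p| + ε * (C * (Real.log N + 1)) + D := h6
    _ < η * Real.log N := by linarith

end Pool.Agent.W597.T.Tr
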